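import Pool.Agent.Helper185.SelHur

/-!
Every set of reals satisfying `S₁(Ω, T)` has the Hurewicz property.
-/

namespace Pool.Agent.Results.MP_8f5cd4_gt.OmegaTauHurewicz

open Set Filter

variable (X : Type*) [TopologicalSpace X]

variable {X} in
/-- `U` is an open cover of `X`: a family of open subsets with union `X`. -/
def IsCover (U : Set (Set X)) : Prop := (∀ u ∈ U, IsOpen u) ∧ ⋃₀ U = univ

variable {X} in
/-- omega-covers: open covers not containing `X` such that each finite set of points is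
contained in a member. -/
def IsOmegaCover (U : Set (Set X)) : Prop :=
  IsCover U ∧ univ ∉ U ∧ ∀ F : Set X, F.Finite → ∃ u ∈ U, F ⊆ u

variable {X} in
/-- tau-covers: open covers such that each point lies in infinitely many members, and for all
points `x`, `y` only finitely many members contain `x` but not `y`, or only finitely many
members contain `y` but not `x`. -/
def IsTauCover (U : Set (Set X)) : Prop :=
  IsCover U ∧ (∀ x, {u | u ∈ U ∧ x ∈ u}.Infinite) ∧
    ∀ x y, {u | u ∈ U ∧ x ∈ u ∧ y ∉ u}.Finite ∨ {u | u ∈ U ∧ y ∈ u ∧ x ∉ u}.Finite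

/-- The property `S₁(Ω, T)`. -/
def S1OmegaTau : Prop :=
  ∀ U : ℕ → Set (Set X), (∀ n, IsOmegaCover (U n)) →
    ∃ V : ℕ → Set X, (∀ n, V n ∈ U n) ∧ IsTauCover (range V)

/-- The Hurewicz property. -/
def Hurewicz : Prop :=
  ∀ U : ℕ → Set (Set X), (∀ n, IsCover (U n)) →
    ∃ F : ℕ → Set (Set X), (∀ n, (F n).Finite ∧ F n ⊆ U n) ∧
      ∀ x, ∀ᶠ n in atTop, x ∈ ⋃₀ F n

open Pool.Agent.Helper185.Sel in
/-- Every set of reals satisfying `S₁(Ω, T)` has the Hurewicz property. -/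
theorem result : ∀ X : Set ℝ, S1OmegaTau X → Hurewicz X := by
  intro X h
  have h' : S1 (OmegaOf (OpenFam X)) (TauOf (OpenFam X)) := by
    intro U hU
    obtain ⟨V, hV, hVT⟩ := h U (fun n => ⟨⟨(hU n).1, (hU n).2.1.1⟩, (hU n).2.1.2, (hU n).2.2⟩)
    refine ⟨V, hV, hVT.1.1, ⟨hVT.1.2, ?_⟩, hVT.2.1, hVT.2.2⟩
    rintro ⟨n, hn⟩
    exact (hU n).2.1.2 (hn ▸ hV n)
  intro U hU
  obtain ⟨F, hF, hx⟩ := hurewicz_of_s1_omega_tau h' U hU
  refine ⟨F, hF, fun x => ?_⟩
  have := (hx x).eventually_cofinite_notMem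
  rw [Nat.cofinite_eq_atTop] at this
  filter_upwards [this] with n hn
  by_contra hcon
  exact hn hcon

end Pool.Agent.Results.MP_8f5cd4_gt.OmegaTauHurewicz
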